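import Pool.Agent.Lib.MP_77f3ac_co_h39.Quiet

/-!
# MP_77f3ac_co: no double threat after an exchange and after an answer
-/

set_option autoImplicit false

namespace Torus103
open Finset
variable {P : Type*} [DecidableEq P]

namespace Q39

theorem conn_singleton (F : Finset P) (L : Finset P) : Conn F {L} := by
  refine ⟨singleton_nonempty L, fun S hS hS1 hS2 => ?_⟩
  exfalso
  rcases subset_singleton_iff.1 hS with h | h
  · exact hS1.ne_empty h
  · rw [h, sdiff_self] at hS2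
    exact hS2.ne_empty rfl

theorem conn_insert {F : Finset P} {C : Finset (Finset P)} {L b : Finset P} (hC : Conn F C)
    (hb : b ∈ C) (h : (L ∩ b ∩ F).Nonempty) : Conn F (insert L C) := by
  refine ⟨insert_nonempty _ _, fun S hS hS1 hS2 => ?_⟩
  by_cases h1 : (S ∩ C).Nonempty
  · by_cases h2 : (C \ S).Nonempty
    · have h3 : C \ (S ∩ C) = C \ S := by
        ext x; simp only [mem_sdiff, mem_inter]; tauto
      obtain ⟨a, ha, b', hb', hab⟩ := hC.2 (S ∩ C) inter_subset_right h1 (by rw [h3]; exact h2)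
      rw [h3] at hb'
      exact ⟨a, (mem_inter.1 ha).1, b', mem_sdiff.2
        ⟨mem_insert_of_mem (mem_sdiff.1 hb').1, (mem_sdiff.1 hb').2⟩, hab⟩
    · have h3 : C ⊆ S := by
        intro x hx
        by_contra hxS
        exact h2 ⟨x, mem_sdiff.2 ⟨hx, hxS⟩⟩
      obtain ⟨y, hy⟩ := hS2
      obtain ⟨hy1, hy2⟩ := mem_sdiff.1 hy
      have hyL : y = L := by
        rcases mem_insert.1 hy1 with h4 | h4
        · exact h4
        · exact absurd (h3 h4) hy2
      subst hyL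
      refine ⟨b, h3 hb, y, hy, ?_⟩
      rw [inter_comm b y]
      exact h
  · have h3 : ∀ x ∈ S, x = L := by
      intro x hx
      rcases mem_insert.1 (hS hx) with h4 | h4
      · exact h4
      · exact absurd ⟨x, mem_inter.2 ⟨hx, h4⟩⟩ h1
    obtain ⟨x, hx⟩ := hS1
    have hxL := h3 x hx
    subst hxL
    have hbS : b ∉ S := fun h4 => h1 ⟨b, mem_inter.2 ⟨h4, hb⟩⟩
    exact ⟨x, hx, b, mem_sdiff.2 ⟨mem_insert_of_mem hb, hbS⟩, h⟩

theorem conn_pair {F : Finset P} {L b : Finset P} (h : (L ∩ b ∩ F).Nonempty) :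
    Conn F {L, b} := conn_insert (conn_singleton F b) (mem_singleton_self b) h

/-- the potential through the weights without `x` -/
theorem Phi_eq (F : Finset P) (𝓛 : Finset (Finset P)) (x : P) :
    Phi F 𝓛 x = ∑ C ∈ 𝓛.powerset.filter (Conn F), al C.card * w (F.erase x) C := by
  rw [Phi]
  refine sum_congr rfl fun C _ => ?_
  rw [w_erase_eq, mul_assoc]

/-- lower bound of the potential by the clusters made of an injective family of lines -/
theorem Phi_ge {n : ℕ} (F : Finset P) (𝓛 : Finset (Finset P)) (x : P) (f : Fin n ↪ Finset P)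
    (hf : ∀ i, f i ∈ 𝓛) (T : Finset (Finset (Fin n))) (hT : ∀ I ∈ T, Conn F (I.map f)) :
    ∑ I ∈ T, al I.card * w (F.erase x) (I.map f) ≤ Phi F 𝓛 x := by
  rw [Phi_eq]
  have h1 : ∑ I ∈ T, al I.card * w (F.erase x) (I.map f)
      = ∑ C ∈ T.image (fun I => I.map f), al C.card * w (F.erase x) C := by
    rw [sum_image]
    · refine sum_congr rfl fun I _ => ?_
      rw [card_map]
    · intro I _ J _ h
      exact map_injective f h
  rw [h1]
  refine sum_le_sum_of_subset_of_nonneg ?_ fun C _ _ => term_nonneg _ _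
  intro C hC
  obtain ⟨I, hI, rfl⟩ := mem_image.1 hC
  refine mem_filter.2 ⟨mem_powerset.2 fun L hL => ?_, hT I hI⟩
  obtain ⟨i, _, rfl⟩ := mem_map.1 hL
  exact hf i

/-- lower bound of a weight -/
theorem w_ge {Q T : Finset P} {C : Finset (Finset P)} {k : ℕ} (h : ∀ L ∈ C, L ∩ Q ⊆ T)
    (hT : T.card ≤ k) : (1 / 2 : ℚ) ^ k ≤ w Q C := by
  rw [w]
  have h1 : un Q C ⊆ T := by
    intro x hx
    obtain ⟨⟨L, hL, hxL⟩, hxQ⟩ := mem_un.1 hx
    exact h L hL (mem_inter.2 ⟨hxL, hxQ⟩)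
  exact pow_le_pow_of_le_one (by norm_num) (by norm_num) ((card_le_card h1).trans hT)

theorem pair_of {S : Finset P} {m : P} (h : S.card = 2) (hm : m ∈ S) : ∃ a, S = {m, a} := by
  obtain ⟨x, y, hxy, rfl⟩ := card_eq_two.1 h
  rcases mem_insert.1 hm with h1 | h1
  · exact ⟨y, by rw [h1]⟩
  · rw [mem_singleton] at h1
    exact ⟨x, by rw [h1, pair_comm]⟩

theorem pair_sub {x y : P} {T : Finset P} (hx : x ∈ T) (hy : y ∈ T) : ({x, y} : Finset P) ⊆ T :=
  insert_subset_iff.2 ⟨hx, singleton_subset_iff.2 hy⟩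

/-- three lines: the potential after an exchange with a double threat -/
theorem T1core {𝓛 : Finset (Finset P)} (F : Finset P) (m a : P) (A R₁ R₂ : Finset P)
    (hA : A ∈ 𝓛) (h₁ : R₁ ∈ 𝓛) (h₂ : R₂ ∈ 𝓛) (hmF : m ∈ F) (hma : m ≠ a)
    (hAF : A ∩ F = {m, a}) (ha₁ : a ∉ R₁) (ha₂ : a ∉ R₂) (hm₁ : m ∈ R₁)
    (hc₁ : (R₁ ∩ F.erase m).card = 2) (hc₂ : (R₂ ∩ F.erase m).card = 2) {p : P}
    (hp₁ : p ∈ R₁) (hp₂ : p ∈ R₂) (hp : p ∈ F.erase m) (hne : R₁ ≠ R₂) :
    7 / 4 ≤ Phi F 𝓛 m := by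
  have haA : a ∈ A := by
    have : a ∈ A ∩ F := by rw [hAF]; exact mem_insert_of_mem (mem_singleton_self a)
    exact (mem_inter.1 this).1
  have hmA : m ∈ A := by
    have : m ∈ A ∩ F := by rw [hAF]; exact mem_insert_self m _
    exact (mem_inter.1 this).1
  have hA1 : A ≠ R₁ := fun e => ha₁ (e ▸ haA)
  have hA2 : A ≠ R₂ := fun e => ha₂ (e ▸ haA)
  have hpF : p ∈ F := mem_of_mem_erase hp
  have hinj : Function.Injective ![A, R₁, R₂] := by
    intro i j hij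
    fin_cases i <;> fin_cases j <;> simp_all
  set f : Fin 3 ↪ Finset P := ⟨![A, R₁, R₂], hinj⟩ with hf
  have f0 : f 0 = A := rfl
  have f1 : f 1 = R₁ := rfl
  have f2 : f 2 = R₂ := rfl
  have hAQ : A ∩ F.erase m = {a} := by
    have : A ∩ F.erase m = (A ∩ F).erase m := by
      ext x; simp only [mem_inter, mem_erase]; tauto
    rw [this, hAF]
    ext x
    simp only [mem_erase, mem_insert, mem_singleton]
    constructor
    · rintro ⟨h1, h2 | h2⟩
      · exact absurd h2 h1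
      · exact h2
    · rintro rfl
      exact ⟨hma.symm, Or.inr rfl⟩
  obtain ⟨c, hc⟩ := pair_of hc₁ (mem_inter.2 ⟨hp₁, hp⟩)
  obtain ⟨d, hd⟩ := pair_of hc₂ (mem_inter.2 ⟨hp₂, hp⟩)
  have k0 : Conn F (({0} : Finset (Fin 3)).map f) := by
    rw [map_singleton]; exact conn_singleton _ _
  have k1 : Conn F (({1} : Finset (Fin 3)).map f) := by
    rw [map_singleton]; exact conn_singleton _ _
  have k2 : Conn F (({2} : Finset (Fin 3)).map f) := by
    rw [map_singleton]; exact conn_singleton _ _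
  have k01 : Conn F (({0, 1} : Finset (Fin 3)).map f) := by
    rw [map_insert, map_singleton, f0, f1]
    exact conn_pair ⟨m, mem_inter.2 ⟨mem_inter.2 ⟨hmA, hm₁⟩, hmF⟩⟩
  have k12 : Conn F (({1, 2} : Finset (Fin 3)).map f) := by
    rw [map_insert, map_singleton, f1, f2]
    exact conn_pair ⟨p, mem_inter.2 ⟨mem_inter.2 ⟨hp₁, hp₂⟩, hpF⟩⟩
  have k012 : Conn F (({0, 1, 2} : Finset (Fin 3)).map f) := by
    rw [map_insert, map_insert, map_singleton, f0, f1, f2]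
    refine conn_insert (b := R₁) (conn_pair ⟨p, mem_inter.2 ⟨mem_inter.2 ⟨hp₁, hp₂⟩, hpF⟩⟩)
      (mem_insert_self _ _) ⟨m, mem_inter.2 ⟨mem_inter.2 ⟨hmA, hm₁⟩, hmF⟩⟩
  have key := Phi_ge F 𝓛 m f (by
      intro i
      fin_cases i
      · exact hA
      · exact h₁
      · exact h₂) {{0}, {1}, {2}, {0, 1}, {1, 2}, {0, 1, 2}} (by
      intro I hI
      simp only [mem_insert, mem_singleton] at hI
      rcases hI with rfl | rfl | rfl | rfl | rfl | rfl
      · exact k0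
      · exact k1
      · exact k2
      · exact k01
      · exact k12
      · exact k012)
  have w0 : (1 / 2 : ℚ) ^ 1 ≤ w (F.erase m) (({0} : Finset (Fin 3)).map f) := by
    refine w_ge (T := {a}) ?_ (card_singleton a).le
    intro L hL
    rw [map_singleton, mem_singleton] at hL
    rw [hL, f0, hAQ]
  have w1 : (1 / 2 : ℚ) ^ 2 ≤ w (F.erase m) (({1} : Finset (Fin 3)).map f) := by
    refine w_ge (T := {p, c}) ?_ card_le_two
    intro L hL
    rw [map_singleton, mem_singleton] at hL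
    rw [hL, f1, hc]
  have w2 : (1 / 2 : ℚ) ^ 2 ≤ w (F.erase m) (({2} : Finset (Fin 3)).map f) := by
    refine w_ge (T := {p, d}) ?_ card_le_two
    intro L hL
    rw [map_singleton, mem_singleton] at hL
    rw [hL, f2, hd]
  have w01 : (1 / 2 : ℚ) ^ 3 ≤ w (F.erase m) (({0, 1} : Finset (Fin 3)).map f) := by
    refine w_ge (T := {a, p, c}) ?_ card_le_three
    intro L hL
    rw [map_insert, map_singleton, mem_insert, mem_singleton] at hL
    rcases hL with hL | hL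
    · rw [hL, f0, hAQ]
      exact singleton_subset_iff.2 (by simp)
    · rw [hL, f1, hc]
      exact pair_sub (by simp) (by simp)
  have w12 : (1 / 2 : ℚ) ^ 3 ≤ w (F.erase m) (({1, 2} : Finset (Fin 3)).map f) := by
    refine w_ge (T := {p, c, d}) ?_ card_le_three
    intro L hL
    rw [map_insert, map_singleton, mem_insert, mem_singleton] at hL
    rcases hL with hL | hL
    · rw [hL, f1, hc]
      exact pair_sub (by simp) (by simp)
    · rw [hL, f2, hd]
      exact pair_sub (by simp) (by simp)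
  have w012 : (1 / 2 : ℚ) ^ 4 ≤ w (F.erase m) (({0, 1, 2} : Finset (Fin 3)).map f) := by
    refine w_ge (T := {a, p, c, d}) ?_ card_le_four
    intro L hL
    rw [map_insert, map_insert, map_singleton, mem_insert, mem_insert, mem_singleton] at hL
    rcases hL with hL | hL | hL
    · rw [hL, f0, hAQ]
      exact singleton_subset_iff.2 (by simp)
    · rw [hL, f1, hc]
      exact pair_sub (by simp) (by simp)
    · rw [hL, f2, hd]
      exact pair_sub (by simp) (by simp)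
  have hsum : ∑ I ∈ ({{0}, {1}, {2}, {0, 1}, {1, 2}, {0, 1, 2}} : Finset (Finset (Fin 3))),
      al I.card * w (F.erase m) (I.map f)
      = al 1 * w (F.erase m) (({0} : Finset (Fin 3)).map f)
      + (al 1 * w (F.erase m) (({1} : Finset (Fin 3)).map f)
      + (al 1 * w (F.erase m) (({2} : Finset (Fin 3)).map f)
      + (al 2 * w (F.erase m) (({0, 1} : Finset (Fin 3)).map f)
      + (al 2 * w (F.erase m) (({1, 2} : Finset (Fin 3)).map f)
      + al 3 * w (F.erase m) (({0, 1, 2} : Finset (Fin 3)).map f))))) := by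
    rw [sum_insert (by decide), sum_insert (by decide), sum_insert (by decide),
      sum_insert (by decide), sum_insert (by decide), sum_singleton]
    rfl
  rw [hsum] at key
  have a1 : al 1 = 1 := rfl
  have a2 : al 2 = 2 := rfl
  have a3 : al 3 = 4 := rfl
  rw [a1, a2, a3] at key
  have p1 : (1 / 2 : ℚ) ^ 1 = 1 / 2 := by norm_num
  have p2 : (1 / 2 : ℚ) ^ 2 = 1 / 4 := by norm_num
  have p3 : (1 / 2 : ℚ) ^ 3 = 1 / 8 := by norm_num
  have p4 : (1 / 2 : ℚ) ^ 4 = 1 / 16 := by norm_num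
  rw [p1] at w0
  rw [p2] at w1 w2
  rw [p3] at w01 w12
  rw [p4] at w012
  linarith only [key, w0, w1, w2, w01, w12, w012]

/-- four lines: the potential after an answer with a second double threat -/
theorem U0core {𝓛 : Finset (Finset P)} (F : Finset P) (z m : P) (L₁ L₂ L₃ L₄ : Finset P)
    (h₁ : L₁ ∈ 𝓛) (h₂ : L₂ ∈ 𝓛) (h₃ : L₃ ∈ 𝓛) (h₄ : L₄ ∈ 𝓛) (hzF : z ∈ F)
    (hm : m ∈ F.erase z) (hm₁ : m ∈ L₁) (hm₂ : m ∈ L₂) (hm₃ : m ∉ L₃) (hm₄ : m ∉ L₄)
    (h12 : L₁ ≠ L₂) (h34 : L₃ ≠ L₄) (hz₁ : z ∈ L₁) (hz₃ : z ∈ L₃)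
    (hc₁ : (L₁ ∩ F.erase z).card = 2) (hc₂ : (L₂ ∩ F.erase z).card = 2)
    (hc₃ : (L₃ ∩ F.erase z).card = 2) (hc₄ : (L₄ ∩ F.erase z).card = 2) {p : P}
    (hp₃ : p ∈ L₃) (hp₄ : p ∈ L₄) (hp : p ∈ F.erase z) :
    7 / 4 ≤ Phi F 𝓛 z := by
  have n13 : L₁ ≠ L₃ := fun e => hm₃ (e ▸ hm₁)
  have n14 : L₁ ≠ L₄ := fun e => hm₄ (e ▸ hm₁)
  have n23 : L₂ ≠ L₃ := fun e => hm₃ (e ▸ hm₂)
  have n24 : L₂ ≠ L₄ := fun e => hm₄ (e ▸ hm₂)
  have hpF : p ∈ F := mem_of_mem_erase hp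
  have hmF : m ∈ F := mem_of_mem_erase hm
  have hinj : Function.Injective ![L₁, L₂, L₃, L₄] := by
    intro i j hij
    fin_cases i <;> fin_cases j <;> simp_all
  set f : Fin 4 ↪ Finset P := ⟨![L₁, L₂, L₃, L₄], hinj⟩ with hf
  have f0 : f 0 = L₁ := rfl
  have f1 : f 1 = L₂ := rfl
  have f2 : f 2 = L₃ := rfl
  have f3 : f 3 = L₄ := rfl
  obtain ⟨a, ha⟩ := pair_of hc₁ (mem_inter.2 ⟨hm₁, hm⟩)
  obtain ⟨b, hb⟩ := pair_of hc₂ (mem_inter.2 ⟨hm₂, hm⟩)
  obtain ⟨c, hc⟩ := pair_of hc₃ (mem_inter.2 ⟨hp₃, hp⟩)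
  obtain ⟨d, hd⟩ := pair_of hc₄ (mem_inter.2 ⟨hp₄, hp⟩)
  have k0 : ∀ i : Fin 4, Conn F (({i} : Finset (Fin 4)).map f) := by
    intro i; rw [map_singleton]; exact conn_singleton _ _
  have c01 : (L₁ ∩ L₂ ∩ F).Nonempty := ⟨m, mem_inter.2 ⟨mem_inter.2 ⟨hm₁, hm₂⟩, hmF⟩⟩
  have c23 : (L₃ ∩ L₄ ∩ F).Nonempty := ⟨p, mem_inter.2 ⟨mem_inter.2 ⟨hp₃, hp₄⟩, hpF⟩⟩
  have c02 : (L₁ ∩ L₃ ∩ F).Nonempty := ⟨z, mem_inter.2 ⟨mem_inter.2 ⟨hz₁, hz₃⟩, hzF⟩⟩
  have c10 : (L₂ ∩ L₁ ∩ F).Nonempty := by rw [inter_comm L₂ L₁]; exact c01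
  have k01 : Conn F (({0, 1} : Finset (Fin 4)).map f) := by
    rw [map_insert, map_singleton, f0, f1]
    exact conn_pair c01
  have k23 : Conn F (({2, 3} : Finset (Fin 4)).map f) := by
    rw [map_insert, map_singleton, f2, f3]
    exact conn_pair c23
  have k02 : Conn F (({0, 2} : Finset (Fin 4)).map f) := by
    rw [map_insert, map_singleton, f0, f2]
    exact conn_pair c02
  have k102 : Conn F (({1, 0, 2} : Finset (Fin 4)).map f) := by
    rw [map_insert, map_insert, map_singleton, f0, f1, f2]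
    exact conn_insert (b := L₁) (conn_pair c02) (mem_insert_self _ _) c10
  have k023 : Conn F (({0, 2, 3} : Finset (Fin 4)).map f) := by
    rw [map_insert, map_insert, map_singleton, f0, f2, f3]
    exact conn_insert (b := L₃) (conn_pair c23) (mem_insert_self _ _) c02
  have key := Phi_ge F 𝓛 z f (by
      intro i
      fin_cases i
      · exact h₁
      · exact h₂
      · exact h₃
      · exact h₄) {{0}, {1}, {2}, {3}, {0, 1}, {2, 3}, {0, 2}, {1, 0, 2}, {0, 2, 3}} (by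
      intro I hI
      simp only [mem_insert, mem_singleton] at hI
      rcases hI with rfl | rfl | rfl | rfl | rfl | rfl | rfl | rfl | rfl
      · exact k0 0
      · exact k0 1
      · exact k0 2
      · exact k0 3
      · exact k01
      · exact k23
      · exact k02
      · exact k102
      · exact k023)
  have w0 : (1 / 2 : ℚ) ^ 2 ≤ w (F.erase z) (({0} : Finset (Fin 4)).map f) := by
    refine w_ge (T := {m, a}) ?_ card_le_two
    intro L hL
    rw [map_singleton, mem_singleton] at hL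
    rw [hL, f0, ha]
  have w1 : (1 / 2 : ℚ) ^ 2 ≤ w (F.erase z) (({1} : Finset (Fin 4)).map f) := by
    refine w_ge (T := {m, b}) ?_ card_le_two
    intro L hL
    rw [map_singleton, mem_singleton] at hL
    rw [hL, f1, hb]
  have w2 : (1 / 2 : ℚ) ^ 2 ≤ w (F.erase z) (({2} : Finset (Fin 4)).map f) := by
    refine w_ge (T := {p, c}) ?_ card_le_two
    intro L hL
    rw [map_singleton, mem_singleton] at hL
    rw [hL, f2, hc]
  have w3 : (1 / 2 : ℚ) ^ 2 ≤ w (F.erase z) (({3} : Finset (Fin 4)).map f) := by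
    refine w_ge (T := {p, d}) ?_ card_le_two
    intro L hL
    rw [map_singleton, mem_singleton] at hL
    rw [hL, f3, hd]
  have w01 : (1 / 2 : ℚ) ^ 3 ≤ w (F.erase z) (({0, 1} : Finset (Fin 4)).map f) := by
    refine w_ge (T := {m, a, b}) ?_ card_le_three
    intro L hL
    rw [map_insert, map_singleton, mem_insert, mem_singleton] at hL
    rcases hL with hL | hL
    · rw [hL, f0, ha]
      exact pair_sub (by simp) (by simp)
    · rw [hL, f1, hb]
      exact pair_sub (by simp) (by simp)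
  have w23 : (1 / 2 : ℚ) ^ 3 ≤ w (F.erase z) (({2, 3} : Finset (Fin 4)).map f) := by
    refine w_ge (T := {p, c, d}) ?_ card_le_three
    intro L hL
    rw [map_insert, map_singleton, mem_insert, mem_singleton] at hL
    rcases hL with hL | hL
    · rw [hL, f2, hc]
      exact pair_sub (by simp) (by simp)
    · rw [hL, f3, hd]
      exact pair_sub (by simp) (by simp)
  have w02 : (1 / 2 : ℚ) ^ 4 ≤ w (F.erase z) (({0, 2} : Finset (Fin 4)).map f) := by
    refine w_ge (T := {m, a, p, c}) ?_ card_le_four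
    intro L hL
    rw [map_insert, map_singleton, mem_insert, mem_singleton] at hL
    rcases hL with hL | hL
    · rw [hL, f0, ha]
      exact pair_sub (by simp) (by simp)
    · rw [hL, f2, hc]
      exact pair_sub (by simp) (by simp)
  have w102 : (1 / 2 : ℚ) ^ 5 ≤ w (F.erase z) (({1, 0, 2} : Finset (Fin 4)).map f) := by
    refine w_ge (T := {m, a, b, p, c}) ?_ card_le_five
    intro L hL
    rw [map_insert, map_insert, map_singleton, mem_insert, mem_insert, mem_singleton] at hL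
    rcases hL with hL | hL | hL
    · rw [hL, f1, hb]
      exact pair_sub (by simp) (by simp)
    · rw [hL, f0, ha]
      exact pair_sub (by simp) (by simp)
    · rw [hL, f2, hc]
      exact pair_sub (by simp) (by simp)
  have w023 : (1 / 2 : ℚ) ^ 5 ≤ w (F.erase z) (({0, 2, 3} : Finset (Fin 4)).map f) := by
    refine w_ge (T := {m, a, p, c, d}) ?_ card_le_five
    intro L hL
    rw [map_insert, map_insert, map_singleton, mem_insert, mem_insert, mem_singleton] at hL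
    rcases hL with hL | hL | hL
    · rw [hL, f0, ha]
      exact pair_sub (by simp) (by simp)
    · rw [hL, f2, hc]
      exact pair_sub (by simp) (by simp)
    · rw [hL, f3, hd]
      exact pair_sub (by simp) (by simp)
  have hsum : ∑ I ∈ ({{0}, {1}, {2}, {3}, {0, 1}, {2, 3}, {0, 2}, {1, 0, 2}, {0, 2, 3}} :
      Finset (Finset (Fin 4))), al I.card * w (F.erase z) (I.map f)
      = al 1 * w (F.erase z) (({0} : Finset (Fin 4)).map f)
      + (al 1 * w (F.erase z) (({1} : Finset (Fin 4)).map f)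
      + (al 1 * w (F.erase z) (({2} : Finset (Fin 4)).map f)
      + (al 1 * w (F.erase z) (({3} : Finset (Fin 4)).map f)
      + (al 2 * w (F.erase z) (({0, 1} : Finset (Fin 4)).map f)
      + (al 2 * w (F.erase z) (({2, 3} : Finset (Fin 4)).map f)
      + (al 2 * w (F.erase z) (({0, 2} : Finset (Fin 4)).map f)
      + (al 3 * w (F.erase z) (({1, 0, 2} : Finset (Fin 4)).map f)
      + al 3 * w (F.erase z) (({0, 2, 3} : Finset (Fin 4)).map f)))))))) := by
    rw [sum_insert (by decide), sum_insert (by decide), sum_insert (by decide),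
      sum_insert (by decide), sum_insert (by decide), sum_insert (by decide),
      sum_insert (by decide), sum_insert (by decide), sum_singleton]
    rfl
  rw [hsum] at key
  have a1 : al 1 = 1 := rfl
  have a2 : al 2 = 2 := rfl
  have a3 : al 3 = 4 := rfl
  rw [a1, a2, a3] at key
  have p2 : (1 / 2 : ℚ) ^ 2 = 1 / 4 := by norm_num
  have p3 : (1 / 2 : ℚ) ^ 3 = 1 / 8 := by norm_num
  have p4 : (1 / 2 : ℚ) ^ 4 = 1 / 16 := by norm_num
  have p5 : (1 / 2 : ℚ) ^ 5 = 1 / 32 := by norm_num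
  rw [p2] at w0 w1 w2 w3
  rw [p3] at w01 w23
  rw [p4] at w02
  rw [p5] at w102 w023
  linarith only [key, w0, w1, w2, w3, w01, w23, w02, w102, w023]

end Q39

open Q39

/-- no double threat after an exchange -/
theorem exchange_nowin {𝓛 : Finset (Finset P)} (F : Finset P)
    (h : Inv F 𝓛) (m a : P) (hma : m ≠ a) (A : Finset P) (hA : A ∈ 𝓛) (hAF : A ∩ F = {m, a}) :
    ∀ L₁ ∈ 𝓛.filter (fun L => a ∉ L), ∀ L₂ ∈ 𝓛.filter (fun L => a ∉ L),
      (L₁ ∩ (F.erase m).erase a).card = 2 → (L₂ ∩ (F.erase m).erase a).card = 2 →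
      (L₁ ∩ L₂ ∩ (F.erase m).erase a).Nonempty →
      L₁ ∩ (F.erase m).erase a = L₂ ∩ (F.erase m).erase a := by
  intro L₁ h₁ L₂ h₂ c₁ c₂ hn
  rw [mem_filter] at h₁ h₂
  have hmF : m ∈ F := by
    have : m ∈ A ∩ F := by rw [hAF]; exact mem_insert_self m _
    exact (mem_inter.1 this).2
  rw [inter_erase_of_notMem h₁.2] at c₁ ⊢
  rw [inter_erase_of_notMem h₂.2] at c₂ ⊢
  obtain ⟨p, hp⟩ := hn
  obtain ⟨hp1, hp2⟩ := mem_inter.1 hp
  obtain ⟨hp3, hp4⟩ := mem_inter.1 hp1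
  have hpQ : p ∈ F.erase m := mem_of_mem_erase hp2
  by_contra hcon
  have hne : L₁ ≠ L₂ := fun e => hcon (by rw [e])
  by_cases m1 : m ∈ L₁
  · exact absurd (h.pot m hmF) (not_lt.2 (T1core F m a A L₁ L₂ hA h₁.1 h₂.1 hmF hma hAF h₁.2 h₂.2
      m1 c₁ c₂ hp3 hp4 hpQ hne))
  · by_cases m2 : m ∈ L₂
    · exact absurd (h.pot m hmF) (not_lt.2 (T1core F m a A L₂ L₁ hA h₂.1 h₁.1 hmF hma hAF h₂.2
        h₁.2 m2 c₂ c₁ hp4 hp3 hpQ hne.symm))
    · rw [inter_erase_of_notMem m1] at c₁ hcon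
      rw [inter_erase_of_notMem m2] at c₂ hcon
      exact hcon (h.nowin L₁ h₁.1 L₂ h₂.1 c₁ c₂
        ⟨p, mem_inter.2 ⟨hp1, mem_of_mem_erase hpQ⟩⟩)

/-- no double threat after an answer -/
theorem answer_nowin {𝓛 : Finset (Finset P)} (F : Finset P)
    (h : Inv F 𝓛) (z : P) (hz : z ∈ F)
    (m : P) (hm : m ∈ F.erase z) (L₁ L₂ : Finset P) (h₁ : L₁ ∈ 𝓛) (h₂ : L₂ ∈ 𝓛)
    (hm₁ : m ∈ L₁) (hm₂ : m ∈ L₂) (hc₁ : (L₁ ∩ F.erase z).card = 2)
    (hc₂ : (L₂ ∩ F.erase z).card = 2) (hne : L₁ ∩ F.erase z ≠ L₂ ∩ F.erase z) :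
    ∀ L₃ ∈ 𝓛.filter (fun L => m ∉ L), ∀ L₄ ∈ 𝓛.filter (fun L => m ∉ L),
      (L₃ ∩ (F.erase z).erase m).card = 2 → (L₄ ∩ (F.erase z).erase m).card = 2 →
      (L₃ ∩ L₄ ∩ (F.erase z).erase m).Nonempty →
      L₃ ∩ (F.erase z).erase m = L₄ ∩ (F.erase z).erase m := by
  intro L₃ h₃ L₄ h₄ c₃ c₄ hn
  rw [mem_filter] at h₃ h₄
  rw [inter_erase_of_notMem h₃.2] at c₃ ⊢
  rw [inter_erase_of_notMem h₄.2] at c₄ ⊢
  obtain ⟨p, hp⟩ := hn
  obtain ⟨hp1, hp2⟩ := mem_inter.1 hp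
  obtain ⟨hp3, hp4⟩ := mem_inter.1 hp1
  have hpQ : p ∈ F.erase z := mem_of_mem_erase hp2
  by_contra hcon
  have n12 : L₁ ≠ L₂ := fun e => hne (by rw [e])
  have n34 : L₃ ≠ L₄ := fun e => hcon (by rw [e])
  -- one of the two lines of each pair contains `z`
  have hA : z ∈ L₁ ∨ z ∈ L₂ := by
    by_contra hcon2
    push Not at hcon2
    rw [inter_erase_of_notMem hcon2.1] at hc₁ hne
    rw [inter_erase_of_notMem hcon2.2] at hc₂ hne
    exact hne (h.nowin L₁ h₁ L₂ h₂ hc₁ hc₂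
      ⟨m, mem_inter.2 ⟨mem_inter.2 ⟨hm₁, hm₂⟩, mem_of_mem_erase hm⟩⟩)
  have hB : z ∈ L₃ ∨ z ∈ L₄ := by
    by_contra hcon2
    push Not at hcon2
    rw [inter_erase_of_notMem hcon2.1] at c₃ hcon
    rw [inter_erase_of_notMem hcon2.2] at c₄ hcon
    exact hcon (h.nowin L₃ h₃.1 L₄ h₄.1 c₃ c₄
      ⟨p, mem_inter.2 ⟨hp1, mem_of_mem_erase hpQ⟩⟩)
  refine absurd (h.pot z hz) (not_lt.2 ?_)
  rcases hA with z1 | z2 <;> rcases hB with z3 | z4
  · exact U0core F z m L₁ L₂ L₃ L₄ h₁ h₂ h₃.1 h₄.1 hz hm hm₁ hm₂ h₃.2 h₄.2 n12 n34 z1 z3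
      hc₁ hc₂ c₃ c₄ hp3 hp4 hpQ
  · exact U0core F z m L₁ L₂ L₄ L₃ h₁ h₂ h₄.1 h₃.1 hz hm hm₁ hm₂ h₄.2 h₃.2 n12 n34.symm z1 z4
      hc₁ hc₂ c₄ c₃ hp4 hp3 hpQ
  · exact U0core F z m L₂ L₁ L₃ L₄ h₂ h₁ h₃.1 h₄.1 hz hm hm₂ hm₁ h₃.2 h₄.2 n12.symm n34 z2 z3
      hc₂ hc₁ c₃ c₄ hp3 hp4 hpQ
  · exact U0core F z m L₂ L₁ L₄ L₃ h₂ h₁ h₄.1 h₃.1 hz hm hm₂ hm₁ h₄.2 h₃.2 n12.symm n34.symm z2
      z4 hc₂ hc₁ c₄ c₃ hp4 hp3 hpQ

end Torus103
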