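import Pool.Agent.Lib.MP_77f3ac_co.Inv

/-!
# MP_77f3ac_co: the quiet move (greedy answer) and the glue of the three cases
-/

set_option autoImplicit false

namespace Torus103
open Finset
variable {P : Type*} [DecidableEq P]

namespace Q39

theorem al_nonneg (n : ℕ) : 0 ≤ al n := by
  unfold al
  split <;> norm_num

theorem w_pos (F : Finset P) (C : Finset (Finset P)) : 0 < w F C := by
  unfold w; positivity

theorem mem_un {F : Finset P} {C : Finset (Finset P)} {x : P} :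
    x ∈ un F C ↔ (∃ L ∈ C, x ∈ L) ∧ x ∈ F := by
  simp only [un, mem_inter, mem_biUnion, id]

/-- erasing a point that is in no line of `C` does not change the cluster -/
theorem inter_erase_of_notMem {L F : Finset P} {y : P} (h : y ∉ L) : L ∩ F.erase y = L ∩ F := by
  ext x
  simp only [mem_inter, mem_erase]
  constructor
  · rintro ⟨h1, _, h2⟩; exact ⟨h1, h2⟩
  · rintro ⟨h1, h2⟩
    exact ⟨h1, fun e => h (e ▸ h1), h2⟩

theorem un_erase_of_forall {F : Finset P} {C : Finset (Finset P)} {y : P}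
    (h : ∀ L ∈ C, y ∉ L) : un (F.erase y) C = un F C := by
  ext x
  rw [mem_un, mem_un, mem_erase]
  constructor
  · rintro ⟨h1, _, h2⟩; exact ⟨h1, h2⟩
  · rintro ⟨⟨L, hL, hx⟩, h2⟩
    exact ⟨⟨L, hL, hx⟩, fun e => h L hL (e ▸ hx), h2⟩

theorem conn_mono {F G : Finset P} (hFG : F ⊆ G) {C : Finset (Finset P)} (h : Conn F C) :
    Conn G C := by
  refine ⟨h.1, fun S hS hS1 hS2 => ?_⟩
  obtain ⟨a, ha, b, hb, x, hx⟩ := h.2 S hS hS1 hS2
  exact ⟨a, ha, b, hb, x, mem_inter.2 ⟨(mem_inter.1 hx).1, hFG (mem_inter.1 hx).2⟩⟩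

theorem conn_erase_of_forall {F : Finset P} {C : Finset (Finset P)} {y : P}
    (h : ∀ L ∈ C, y ∉ L) : Conn (F.erase y) C ↔ Conn F C := by
  constructor
  · exact conn_mono (erase_subset _ _)
  · intro hC
    refine ⟨hC.1, fun S hS hS1 hS2 => ?_⟩
    obtain ⟨a, ha, b, hb, x, hx⟩ := hC.2 S hS hS1 hS2
    refine ⟨a, ha, b, hb, x, ?_⟩
    obtain ⟨hx1, hx2⟩ := mem_inter.1 hx
    refine mem_inter.2 ⟨hx1, mem_erase.2 ⟨fun e => ?_, hx2⟩⟩
    exact h a (hS ha) (e ▸ (mem_inter.1 hx1).1)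

/-- the weight after Maker has taken `z` -/
theorem w_erase_eq {F : Finset P} {C : Finset (Finset P)} (z : P) :
    w (F.erase z) C = w F C * (if z ∈ un F C then 2 else 1) := by
  have h : un (F.erase z) C = (un F C).erase z := by
    ext x
    rw [mem_erase, mem_un, mem_un, mem_erase]
    tauto
  rw [w, h, w]
  split_ifs with hz
  · rw [card_erase_of_mem hz]
    have h1 : 0 < (un F C).card := card_pos.2 ⟨z, hz⟩
    obtain ⟨k, hk⟩ := Nat.exists_eq_succ_of_ne_zero h1.ne'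
    rw [hk, Nat.succ_eq_add_one, Nat.add_sub_cancel, pow_succ]
    ring
  · rw [erase_eq_of_notMem hz, mul_one]

/-- the potential at Breaker's turn -/
noncomputable def Vt (Q : Finset P) (𝓛 : Finset (Finset P)) : ℚ :=
  ∑ C ∈ 𝓛.powerset.filter (Conn Q), al C.card * w Q C

/-- the part of the potential at Breaker's turn that is killed by `y` -/
noncomputable def Wt (Q : Finset P) (𝓛 : Finset (Finset P)) (y : P) : ℚ :=
  ∑ C ∈ (𝓛.powerset.filter (Conn Q)).filter (fun C => y ∈ un Q C), al C.card * w Q C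

theorem term_nonneg (Q : Finset P) (C : Finset (Finset P)) : 0 ≤ al C.card * w Q C :=
  mul_nonneg (al_nonneg _) (w_pos _ _).le

/-- after Maker's move `z` the potential is at most `Phi z` -/
theorem Vt_le (F : Finset P) (𝓛 : Finset (Finset P)) (z : P) :
    Vt (F.erase z) 𝓛 ≤ Phi F 𝓛 z := by
  have hsub : 𝓛.powerset.filter (Conn (F.erase z)) ⊆ 𝓛.powerset.filter (Conn F) := by
    intro C hC
    rw [mem_filter] at hC ⊢
    exact ⟨hC.1, conn_mono (erase_subset _ _) hC.2⟩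
  have h1 : Vt (F.erase z) 𝓛 = ∑ C ∈ 𝓛.powerset.filter (Conn (F.erase z)),
      al C.card * w F C * (if z ∈ un F C then 2 else 1) := by
    refine sum_congr rfl fun C _ => ?_
    rw [w_erase_eq, mul_assoc]
  rw [h1, Phi]
  refine sum_le_sum_of_subset_of_nonneg hsub fun C _ _ => ?_
  refine mul_nonneg (term_nonneg _ _) ?_
  split_ifs <;> norm_num

/-- the greedy answer -/
theorem Phi_greedy (Q : Finset P) (𝓛 : Finset (Finset P)) {x y : P} (hy : y ∈ Q)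
    (hmax : Wt Q 𝓛 x ≤ Wt Q 𝓛 y) :
    Phi (Q.erase y) (𝓛.filter (fun L => y ∉ L)) x ≤ Vt Q 𝓛 := by
  set T := 𝓛.powerset.filter (Conn Q) with hT
  -- the clusters after the answer are the clusters without `y`
  have hset : (𝓛.filter (fun L => y ∉ L)).powerset.filter (Conn (Q.erase y))
      = T.filter (fun C => y ∉ un Q C) := by
    ext C
    rw [mem_filter, mem_powerset, mem_filter, hT, mem_filter, mem_powerset]
    constructor
    · rintro ⟨h1, h2⟩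
      have h3 : ∀ L ∈ C, y ∉ L := fun L hL => (mem_filter.1 (h1 hL)).2
      refine ⟨⟨fun L hL => (mem_filter.1 (h1 hL)).1, (conn_erase_of_forall h3).1 h2⟩, fun h4 => ?_⟩
      obtain ⟨⟨L, hL, hyL⟩, _⟩ := mem_un.1 h4
      exact h3 L hL hyL
    · rintro ⟨⟨h1, h2⟩, h3⟩
      have h4 : ∀ L ∈ C, y ∉ L := fun L hL hyL => h3 (mem_un.2 ⟨⟨L, hL, hyL⟩, hy⟩)
      exact ⟨fun L hL => mem_filter.2 ⟨h1 hL, h4 L hL⟩, (conn_erase_of_forall h4).2 h2⟩
  have h1 : Phi (Q.erase y) (𝓛.filter (fun L => y ∉ L)) x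
      = ∑ C ∈ T.filter (fun C => y ∉ un Q C),
        (al C.card * w Q C + if x ∈ un Q C then al C.card * w Q C else 0) := by
    rw [Phi, hset]
    refine sum_congr rfl fun C hC => ?_
    have h4 : ∀ L ∈ C, y ∉ L := fun L hL hyL =>
      (mem_filter.1 hC).2 (mem_un.2 ⟨⟨L, hL, hyL⟩, hy⟩)
    rw [w, un_erase_of_forall h4, ← w]
    split_ifs <;> ring
  have h2 : ∑ C ∈ T.filter (fun C => y ∉ un Q C), (if x ∈ un Q C then al C.card * w Q C else 0)
      ≤ Wt Q 𝓛 x := by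
    rw [← sum_filter, Wt]
    refine sum_le_sum_of_subset_of_nonneg ?_ fun C _ _ => term_nonneg _ _
    intro C hC
    rw [mem_filter, mem_filter] at hC
    exact mem_filter.2 ⟨hC.1.1, hC.2⟩
  have h3 : ∑ C ∈ T.filter (fun C => y ∉ un Q C), al C.card * w Q C + Wt Q 𝓛 y = Vt Q 𝓛 := by
    rw [Wt, Vt, ← hT, add_comm]
    exact sum_filter_add_sum_filter_not T (fun C => y ∈ un Q C) _
  rw [h1, sum_add_distrib]
  linarith

end Q39

open Q39

/-- Quiet move that creates no double threat: greedy answer. -/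
theorem quiet {𝓛 : Finset (Finset P)} (F : Finset P)
    (h : Inv F 𝓛) (z : P) (hz : z ∈ F) (hq : ∀ L ∈ 𝓛, z ∈ L → (L ∩ F).card ≠ 2)
    (hno : ∀ L₁ ∈ 𝓛, ∀ L₂ ∈ 𝓛, (L₁ ∩ F.erase z).card = 2 → (L₂ ∩ F.erase z).card = 2 →
      (L₁ ∩ L₂ ∩ F.erase z).Nonempty → L₁ ∩ F.erase z = L₂ ∩ F.erase z)
    (hne : (F.erase z).Nonempty) :
    ∃ y ∈ F.erase z, Inv ((F.erase z).erase y) (𝓛.filter (fun L => y ∉ L)) := by
  obtain ⟨y, hy, hmax⟩ := exists_max_image (F.erase z) (Wt (F.erase z) 𝓛) hne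
  refine ⟨y, hy, ?_, ?_, ?_⟩
  · intro x hx
    exact ((Phi_greedy _ _ hy (hmax x (mem_of_mem_erase hx))).trans (Vt_le F 𝓛 z)).trans_lt
      (h.pot z hz)
  · intro L hL
    rw [mem_filter] at hL
    rw [inter_erase_of_notMem hL.2]
    by_cases hzL : z ∈ L
    · have h1 := h.two_le L hL.1
      have h2 := hq L hL.1 hzL
      have h3 : L ∩ F.erase z = (L ∩ F).erase z := by
        ext x; simp only [mem_inter, mem_erase]; tauto
      rw [h3, card_erase_of_mem (mem_inter.2 ⟨hzL, hz⟩)]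
      omega
    · rw [inter_erase_of_notMem hzL]
      exact h.two_le L hL.1
  · intro L₁ h₁ L₂ h₂ c₁ c₂ hn
    rw [mem_filter] at h₁ h₂
    rw [inter_erase_of_notMem h₁.2] at c₁ ⊢
    rw [inter_erase_of_notMem h₂.2] at c₂ ⊢
    refine hno L₁ h₁.1 L₂ h₂.1 c₁ c₂ ?_
    obtain ⟨x, hx⟩ := hn
    exact ⟨x, mem_inter.2 ⟨(mem_inter.1 hx).1, mem_of_mem_erase (mem_inter.1 hx).2⟩⟩

/-- One round: glue of the three cases (`exchange` and `answer` as hypotheses). -/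
theorem step_of {𝓛 : Finset (Finset P)} (F : Finset P)
    (hex : ∀ (m a : P), m ≠ a → ∀ A : Finset P, A ∈ 𝓛 → A ∩ F = {m, a} →
      Inv ((F.erase m).erase a) (𝓛.filter (fun L => a ∉ L)))
    (han : ∀ z : P, z ∈ F → (∀ L ∈ 𝓛, z ∈ L → (L ∩ F).card ≠ 2) →
      ∀ m : P, m ∈ F.erase z → ∀ L₁ L₂ : Finset P, L₁ ∈ 𝓛 → L₂ ∈ 𝓛 → m ∈ L₁ → m ∈ L₂ →
      (L₁ ∩ F.erase z).card = 2 → (L₂ ∩ F.erase z).card = 2 →
      L₁ ∩ F.erase z ≠ L₂ ∩ F.erase z →
      Inv ((F.erase z).erase m) (𝓛.filter (fun L => m ∉ L)))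
    (h : Inv F 𝓛) (z : P) (hz : z ∈ F) (hne : (F.erase z).Nonempty) :
    ∃ y ∈ F.erase z, Inv ((F.erase z).erase y) (𝓛.filter (fun L => y ∉ L)) := by
  by_cases hq : ∀ L ∈ 𝓛, z ∈ L → (L ∩ F).card ≠ 2
  · by_cases hno : ∀ L₁ ∈ 𝓛, ∀ L₂ ∈ 𝓛, (L₁ ∩ F.erase z).card = 2 → (L₂ ∩ F.erase z).card = 2 →
      (L₁ ∩ L₂ ∩ F.erase z).Nonempty → L₁ ∩ F.erase z = L₂ ∩ F.erase z
    · exact quiet F h z hz hq hno hne
    · push Not at hno
      obtain ⟨L₁, h₁, L₂, h₂, c₁, c₂, ⟨m, hm⟩, hd⟩ := hno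
      obtain ⟨hm1, hm2⟩ := mem_inter.1 hm
      obtain ⟨hm3, hm4⟩ := mem_inter.1 hm1
      exact ⟨m, hm2, han z hz hq m hm2 L₁ L₂ h₁ h₂ hm3 hm4 c₁ c₂ hd⟩
  · push Not at hq
    obtain ⟨A, hA, hzA, hc⟩ := hq
    have h1 : ((A ∩ F).erase z).card = 1 := by
      rw [card_erase_of_mem (mem_inter.2 ⟨hzA, hz⟩), hc]
    obtain ⟨a, ha⟩ := card_eq_one.1 h1
    have ha1 : a ∈ (A ∩ F).erase z := by rw [ha]; exact mem_singleton_self a
    have haz : z ≠ a := fun e => (mem_erase.1 ha1).1 e.symm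
    have hAF : A ∩ F = {z, a} := by
      rw [← insert_erase (mem_inter.2 ⟨hzA, hz⟩ : z ∈ A ∩ F), ha]
    refine ⟨a, mem_erase.2 ⟨haz.symm, (mem_inter.1 (mem_of_mem_erase ha1)).2⟩, ?_⟩
    exact hex z a haz A hA hAF

end Torus103
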